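import Pool.Agent.Helper87.VM.Lib2

set_option autoImplicit false

namespace Pool.Agent.Helper87.VM

/-! Module CDIST: at most one coincidence among the coordinates of a point of the curve. -/

open Polynomial

/-- the polynomial with roots `s` when the middle elementary symmetric functions vanish -/
theorem cdist_poly (n : ℕ) (s : Multiset ℂ) (hs : Multiset.card s = n + 2)
    (he : ∀ j, 1 ≤ j → j ≤ n → s.esymm j = 0) :
    ∃ A B : ℂ, (s.map (fun t => X - C t)).prod = X ^ (n + 2) + C A * X + C B := by
  refine ⟨(-1) ^ (n + 1) * s.esymm (n + 1), (-1) ^ (n + 2) * s.esymm (n + 2), ?_⟩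
  rw [Multiset.prod_X_sub_X_eq_sum_esymm, hs, Finset.sum_range_succ, Finset.sum_range_succ,
    Finset.sum_range_succ']
  have h0 : ∑ k ∈ Finset.range n, (-1 : ℂ[X]) ^ (k + 1) * (C (s.esymm (k + 1)) * X ^ (n + 2 - (k + 1)))
      = 0 := by
    refine Finset.sum_eq_zero fun k hk => ?_
    rw [he (k + 1) (by omega) (by have := Finset.mem_range.mp hk; omega)]
    simp
  have h1 : s.esymm 0 = 1 := by simp [Multiset.esymm]
  have h2 : n + 2 - (n + 1) = 1 := by omega
  have h3 : n + 2 - (n + 2) = 0 := by omega
  rw [h0, h1, h2, h3]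
  simp only [map_mul, map_pow, map_neg, map_one, pow_zero, pow_one, Nat.sub_zero, one_mul, mul_one,
    zero_add]
  ring

theorem st_CDIST : ST_CDIST := by
  intro κ _ hM z hz hz0
  classical
  obtain ⟨n, hn⟩ : ∃ n, Fintype.card κ = n + 2 := ⟨Fintype.card κ - 2, by omega⟩
  have hn1 : 1 ≤ n := by omega
  obtain ⟨s, hsd⟩ : ∃ s : Multiset ℂ, s = Finset.univ.val.map z := ⟨_, rfl⟩
  have hs : Multiset.card s = n + 2 := by
    rw [hsd, Multiset.card_map, Finset.card_val, Finset.card_univ, hn]
  have he : ∀ j, 1 ≤ j → j ≤ n → s.esymm j = 0 := by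
    intro j h1 h2
    have h := hz j h1 (by omega)
    rw [hsd, ← MvPolynomial.aeval_esymm_eq_multiset_esymm κ ℂ j z]
    exact h
  obtain ⟨A, B, hF⟩ := cdist_poly n s hs he
  have hroot : ∀ i, z i ^ (n + 2) + A * z i + B = 0 := by
    intro i
    have hmem : z i ∈ s := by
      rw [hsd]; exact Multiset.mem_map_of_mem z (Finset.mem_univ_val i)
    have h1 : (s.map (fun t => X - C t)).prod.eval (z i) = 0 := by
      have h2 : (X - C (z i)) ∣ (s.map (fun t => X - C t)).prod :=
        Multiset.dvd_prod (Multiset.mem_map_of_mem (fun t => X - C t) hmem)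
      obtain ⟨q, hq⟩ := h2
      rw [hq]; simp
    rw [hF] at h1
    simpa using h1
  have hAB : ¬ (A = 0 ∧ B = 0) := by
    rintro ⟨hA, hB⟩
    apply hz0
    funext i
    have h := hroot i
    rw [hA, hB] at h
    have h' : z i ^ (n + 2) = 0 := by linear_combination h
    exact pow_eq_zero_iff (by omega) |>.mp h'
  constructor
  · -- the linear combination
    have hL : ∀ p : ℂ[X], p ∣ (s.map (fun t => X - C t)).prod →
        p ∣ derivative (s.map (fun t => X - C t)).prod →
        p ∣ C ((n + 1 : ℂ) * A) * X + C ((n + 2 : ℂ) * B) := by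
      intro p h1 h2
      have e : C ((n + 1 : ℂ) * A) * X + C ((n + 2 : ℂ) * B)
          = C (n + 2 : ℂ) * (s.map (fun t => X - C t)).prod
            - X * derivative (s.map (fun t => X - C t)).prod := by
        rw [hF]
        simp only [derivative_add, derivative_mul, derivative_C, derivative_X, derivative_X_pow,
          zero_mul, zero_add, mul_one, add_zero]
        simp only [map_mul, map_add, map_natCast, map_ofNat, map_one, Nat.cast_add, Nat.cast_ofNat]
        have : n + 2 - 1 = n + 1 := by omega
        rw [this]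
        ring
      rw [e]
      exact dvd_sub (h1.mul_left _) (h2.mul_left _)
    have hprod : (s.map (fun t => X - C t)).prod = ∏ a ∈ s.toFinset, (X - C a) ^ s.count a :=
      Finset.prod_multiset_map_count s _
    have hdiv : (∏ a ∈ s.toFinset, (X - C a : ℂ[X]) ^ (s.count a - 1)) ∣
        C ((n + 1 : ℂ) * A) * X + C ((n + 2 : ℂ) * B) := by
      refine Finset.prod_dvd_of_coprime ?_ ?_
      · intro a _ b _ hab
        exact (Polynomial.isCoprime_X_sub_C_of_isUnit_sub
          (isUnit_iff_ne_zero.mpr (sub_ne_zero.mpr hab))).pow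
      · intro a ha
        have h1 : (X - C a : ℂ[X]) ^ s.count a ∣ (s.map (fun t => X - C t)).prod := by
          rw [hprod]
          exact Finset.dvd_prod_of_mem (fun a => (X - C a : ℂ[X]) ^ s.count a) ha
        exact hL _ ((pow_dvd_pow _ (Nat.sub_le _ _)).trans h1)
          (Polynomial.pow_sub_one_dvd_derivative_of_pow_dvd h1)
    have hLne : C ((n + 1 : ℂ) * A) * X + C ((n + 2 : ℂ) * B) ≠ 0 := by
      intro h
      apply hAB
      have h1 := congrArg (fun p => coeff p 1) h
      have h0 := congrArg (fun p => coeff p 0) h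
      simp only [coeff_add, coeff_C_mul, coeff_X_one, coeff_C, coeff_zero, coeff_X_zero] at h0 h1
      have hn1' : (n : ℂ) + 1 ≠ 0 := by exact_mod_cast Nat.succ_ne_zero n
      have hn2' : (n : ℂ) + 2 ≠ 0 := by exact_mod_cast Nat.succ_ne_zero (n + 1)
      constructor
      · have : ((n : ℂ) + 1) * A = 0 := by simpa using h1
        exact (mul_eq_zero.mp this).resolve_left hn1'
      · have : ((n : ℂ) + 2) * B = 0 := by simpa using h0
        exact (mul_eq_zero.mp this).resolve_left hn2'
    have hdeg := Polynomial.natDegree_le_of_dvd hdiv hLne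
    have hd1 : (C ((n + 1 : ℂ) * A) * X + C ((n + 2 : ℂ) * B)).natDegree ≤ 1 :=
      Polynomial.natDegree_linear_le
    have hd2 : (∏ a ∈ s.toFinset, (X - C a : ℂ[X]) ^ (s.count a - 1)).natDegree
        = ∑ a ∈ s.toFinset, (s.count a - 1) := by
      rw [Polynomial.natDegree_prod_of_monic _ _ (fun a _ => (monic_X_sub_C a).pow _)]
      refine Finset.sum_congr rfl fun a _ => ?_
      rw [(monic_X_sub_C a).natDegree_pow, natDegree_X_sub_C, mul_one]
    have hsum : ∑ a ∈ s.toFinset, (s.count a - 1) + s.toFinset.card = n + 2 := by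
      rw [← hs, ← Multiset.toFinset_sum_count_eq s, Finset.card_eq_sum_ones, ← Finset.sum_add_distrib]
      refine Finset.sum_congr rfl fun a ha => ?_
      have : 1 ≤ s.count a := Multiset.one_le_count_iff_mem.mpr (Multiset.mem_toFinset.mp ha)
      omega
    have hcard : (Set.range z).ncard = s.toFinset.card := by
      have : Set.range z = (s.toFinset : Set ℂ) := by
        ext x
        rw [hsd]
        simp
      rw [this, Set.ncard_coe_finset]
    rw [hn, hcard]
    omega
  · rintro i j hij ⟨hi, hj⟩
    apply hAB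
    have hX : (X : ℂ[X]) ^ 2 ∣ (s.map (fun t => X - C t)).prod := by
      have h1 : ({z i, z j} : Multiset ℂ) ≤ s := by
        have h2 : ({i, j} : Finset κ).val ≤ Finset.univ.val :=
          Finset.val_le_iff.mpr (Finset.subset_univ _)
        have h3 := Multiset.map_le_map (f := z) h2
        rw [← hsd] at h3
        have h4 : ({i, j} : Finset κ).val = {i, j} := by
          rw [Finset.insert_val_of_notMem (by simpa using hij)]
          rfl
        rw [h4] at h3
        simpa using h3
      have h5 := Multiset.prod_dvd_prod_of_le (Multiset.map_le_map (f := fun t => (X - C t : ℂ[X])) h1)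
      rw [hi, hj] at h5
      simpa [pow_two] using h5
    rw [hF] at hX
    have hc := Polynomial.X_pow_dvd_iff.mp hX
    have h0 := hc 0 (by norm_num)
    have h1 := hc 1 (by norm_num)
    constructor
    · have e : (1 : ℕ) ≠ n + 2 := by omega
      simpa [coeff_X_pow, coeff_C, e] using h1
    · simpa [coeff_X_pow] using h0

end Pool.Agent.Helper87.VM
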